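import Pool.Agent.J4H95.CC.Upper

/-!
# AND-composed functions: deterministic versus quantum communication (MP_799357_lc)

The question is whether there is a polynomial `P` with `D(F) ≤ P(Q*_{1/3}(F))` for all functions
`F(x, y) = f(x ∧ y)`. The answer is no, and the gap is exponential: for the parity `f(z)` of the
number of leading ones of `z` one has `F(x, y) = min (a, b) mod 2`, where `a` and `b` are the
numbers of leading ones of `x` and `y`. The matrix of `F` has rank at least `n`, so that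
`D(F) ≥ log₂ n`. A noisy binary search with hash values for the first difference of the binary
expansions of `a` and `b` gives `R_{1/3}(F) = O(log log n)`, and `Q* ≤ 2 R`.

The definitions of `D`, `R`, `Qstar` and `andComp` are in `Pool.Agent.J4H95.CC.Defs`.
-/

namespace Pool.Agent.Results.MP_799357_lc.LeadingOnes

open Pool.Agent.J4H95.CC

/-- The number of leading ones of `z`. -/
def leadingOnes {n : ℕ} (z : Fin n → Bool) : ℕ :=
  (Finset.univ.filter fun i : Fin n => ∀ j : Fin n, j ≤ i → z j = true).card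

/-- The parity of the number of leading ones. -/
def parityLeadingOnes (n : ℕ) (z : Fin n → Bool) : Bool :=
  decide (leadingOnes z % 2 = 1)

theorem leadingOnes_and {n : ℕ} (x y : Fin n → Bool) :
    leadingOnes (fun i => x i && y i) = min (leadingOnes x) (leadingOnes y) := by
  classical
  let S : (Fin n → Bool) → Finset (Fin n) := fun z =>
    Finset.univ.filter fun i : Fin n => ∀ j : Fin n, j ≤ i → z j = true
  have hS : S (fun i => x i && y i) = S x ∩ S y := by
    ext i
    simp only [S, Finset.mem_filter, Finset.mem_univ, true_and, Finset.mem_inter,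
      Bool.and_eq_true]
    constructor
    · intro h
      exact ⟨fun j hj => (h j hj).1, fun j hj => (h j hj).2⟩
    · rintro ⟨h1, h2⟩ j hj
      exact ⟨h1 j hj, h2 j hj⟩
  have hlow : ∀ z i j, i ∈ S z → j ≤ i → j ∈ S z := by
    intro z i j hi hj
    simp only [S, Finset.mem_filter, Finset.mem_univ, true_and] at hi ⊢
    intro k hk
    exact hi k (hk.trans hj)
  have hsub : S x ⊆ S y ∨ S y ⊆ S x := by
    by_contra h
    push Not at h
    obtain ⟨h1, h2⟩ := h
    obtain ⟨i, hi, hi'⟩ := Finset.not_subset.mp h1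
    obtain ⟨j, hj, hj'⟩ := Finset.not_subset.mp h2
    rcases le_total i j with h | h
    · exact hi' (hlow y j i hj h)
    · exact hj' (hlow x i j hi h)
  show (S (fun i => x i && y i)).card = min (S x).card (S y).card
  rw [hS]
  rcases hsub with h | h
  · rw [Finset.inter_eq_left.mpr h, min_eq_left (Finset.card_le_card h)]
  · rw [Finset.inter_eq_right.mpr h, min_eq_right (Finset.card_le_card h)]

theorem leadingOnes_le {n : ℕ} (z : Fin n → Bool) : leadingOnes z ≤ n := by
  refine (Finset.card_le_univ _).trans ?_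
  simp

theorem leadingOnes_ones {n : ℕ} (a : ℕ) (ha : a ≤ n) :
    leadingOnes (fun i : Fin n => decide (i.1 < a)) = a := by
  unfold leadingOnes
  have : (Finset.univ.filter fun i : Fin n => ∀ j : Fin n, j ≤ i → decide (j.1 < a) = true) =
      Finset.univ.filter (fun i : Fin n => i.1 < a) := by
    ext i
    simp only [Finset.mem_filter, Finset.mem_univ, true_and, decide_eq_true_eq]
    constructor
    · intro h
      exact h i le_rfl
    · intro h j hj
      exact lt_of_le_of_lt hj h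
  rw [this, Fin.card_filter_val_lt, min_eq_right ha]

theorem andComp_eq {n : ℕ} (x y : Fin n → Bool) : andComp (parityLeadingOnes n) x y =
    decide (min (leadingOnes x) (leadingOnes y) % 2 = 1) := by
  simp only [andComp, parityLeadingOnes, leadingOnes_and]

/-- The lower bound `n ≤ 2 ^ D(F)`. -/
theorem le_two_pow_D (n : ℕ) : n ≤ 2 ^ D (andComp (parityLeadingOnes n)) := by
  obtain ⟨c, hc⟩ := exists_det n (andComp (parityLeadingOnes n))
  obtain ⟨t, h1, h2⟩ := Nat.sInf_mem (s := {c | ∃ t : DetProt (Fin n → Bool) (Fin n → Bool),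
    t.cost ≤ c ∧ ∀ x y, t.run x y = andComp (parityLeadingOnes n) x y}) ⟨c, hc⟩
  refine le_trans ?_ (Nat.pow_le_pow_right (by norm_num) h1)
  apply two_pow_cost_ge n t (fun a i => decide (i.1 < a)) (fun a i => decide (i.1 < a))
  intro a b ha hb
  rw [h2, andComp_eq, leadingOnes_ones a ha, leadingOnes_ones b hb]

theorem D_ge (m : ℕ) (hm : 2 ≤ m) : m ≤ D (andComp (parityLeadingOnes (2 ^ m - 1))) := by
  have h := le_two_pow_D (2 ^ m - 1)
  by_contra hlt
  push Not at hlt
  have h1 : 2 ^ D (andComp (parityLeadingOnes (2 ^ m - 1))) ≤ 2 ^ (m - 1) :=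
    Nat.pow_le_pow_right (by norm_num) (by omega)
  have h2 : 2 ^ m = 2 * 2 ^ (m - 1) := by
    rw [← pow_succ']
    congr 1
    omega
  have h3 : 2 ^ 1 ≤ 2 ^ (m - 1) := Nat.pow_le_pow_right (by norm_num) (by omega)
  omega

theorem R_le {m L : ℕ} (hm : m < 2 ^ L) :
    R (1 / 3) (andComp (parityLeadingOnes (2 ^ m - 1))) ≤ 90 * L + 2 ∧
    Qstar (1 / 3) (andComp (parityLeadingOnes (2 ^ m - 1))) ≤ 180 * L + 4 := by
  have hlt : ∀ z : Fin (2 ^ m - 1) → Bool, leadingOnes z < 2 ^ m := by
    intro z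
    have := leadingOnes_le z
    have h2 : 0 < 2 ^ m := by positivity
    omega
  obtain ⟨Ω, _, p, t, h1, h2, h3, h4⟩ := exists_randomized (X := Fin (2 ^ m - 1) → Bool)
    (Y := Fin (2 ^ m - 1) → Bool) hm leadingOnes leadingOnes hlt hlt
  have h5 : ∀ x y, 1 - 1 / 3 ≤ ∑ ω, if (t ω).run x y =
      andComp (parityLeadingOnes (2 ^ m - 1)) x y then p ω else 0 := by
    intro x y
    simp only [andComp_eq]
    exact h4 x y
  refine ⟨Nat.sInf_le ⟨Ω, inferInstance, p, t, h1, h2, h3, h5⟩, ?_⟩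
  have := Qstar_le_of_prot p t h1 h2 h3 h5
  omega

/-- A polynomial in `L` is eventually smaller than `2 ^ L`. -/
theorem poly_lt (P : Polynomial ℝ) : ∃ L : ℕ, 2 ≤ L ∧ ∀ q : ℕ, q ≤ 180 * L + 4 →
    P.eval (q : ℝ) < ((2 ^ L - 1 : ℕ) : ℝ) := by
  set C : ℝ := ∑ i ∈ Finset.range (P.natDegree + 1), |P.coeff i| with hC
  set d := P.natDegree with hd
  have hbound : ∀ (L q : ℕ), 2 ≤ L → q ≤ 180 * L + 4 →
      P.eval (q : ℝ) ≤ C * (182 * (L : ℝ)) ^ d := by
    intro L q hL hq
    have hL' : (2 : ℝ) ≤ L := by exact_mod_cast hL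
    have hq' : (q : ℝ) ≤ 180 * L + 4 := by exact_mod_cast hq
    rw [Polynomial.eval_eq_sum_range, hC, Finset.sum_mul]
    apply Finset.sum_le_sum
    intro i hi
    rw [Finset.mem_range] at hi
    calc P.coeff i * (q : ℝ) ^ i ≤ |P.coeff i| * (q : ℝ) ^ i :=
          mul_le_mul_of_nonneg_right (le_abs_self _) (by positivity)
      _ ≤ |P.coeff i| * (182 * (L : ℝ)) ^ i := by
          apply mul_le_mul_of_nonneg_left _ (abs_nonneg _)
          apply pow_le_pow_left₀ (by positivity)
          linarith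
      _ ≤ |P.coeff i| * (182 * (L : ℝ)) ^ d := by
          apply mul_le_mul_of_nonneg_left _ (abs_nonneg _)
          apply pow_le_pow_right₀ (by linarith)
          omega
  have hlim : Filter.Tendsto (fun L : ℕ => (L : ℝ) ^ d / 2 ^ L) Filter.atTop (nhds 0) :=
    tendsto_pow_const_div_const_pow_of_one_lt d (by norm_num)
  have hpos : (0 : ℝ) < 1 / (2 * ((C + 1) * 182 ^ d)) := by
    have : 0 ≤ C := Finset.sum_nonneg fun i _ => abs_nonneg _
    positivity
  have hev := (hlim.eventually (gt_mem_nhds hpos)).and (Filter.eventually_ge_atTop 2)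
  obtain ⟨L, hL, hL2⟩ := hev.exists
  refine ⟨L, hL2, ?_⟩
  intro q hq
  have hC0 : 0 ≤ C := Finset.sum_nonneg fun i _ => abs_nonneg _
  have h1 := hbound L q hL2 hq
  have h2 : (0 : ℝ) < 2 ^ L := by positivity
  rw [div_lt_iff₀ h2, one_div, inv_mul_eq_div, lt_div_iff₀ (by positivity)] at hL
  have h3 : C * (182 * (L : ℝ)) ^ d ≤ (C + 1) * 182 ^ d * (L : ℝ) ^ d := by
    rw [mul_pow]
    have : 0 ≤ (182 : ℝ) ^ d * (L : ℝ) ^ d := by positivity
    nlinarith
  have h4 : (4 : ℝ) ≤ 2 ^ L := by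
    calc (4 : ℝ) = 2 ^ 2 := by norm_num
      _ ≤ 2 ^ L := pow_le_pow_right₀ (by norm_num) hL2
  have h5 : (((2 ^ L - 1 : ℕ)) : ℝ) = 2 ^ L - 1 := by
    rw [Nat.cast_sub Nat.one_le_two_pow]
    push_cast
    ring
  rw [h5]
  nlinarith

/-- **Deterministic communication is not polynomially bounded by entanglement-assisted quantum
communication for AND-composed functions.**

(1) There is no polynomial `P` with `D(F) ≤ P(Q*_{1/3}(F))` for all `n` and all
`F(x, y) = f(x ∧ y)`, `f : {0,1}^n → {0,1}`.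

(2) The gap is exponential. Let `f` be the parity of the number of leading ones. Then
`n ≤ 2 ^ D(F)` for all `n`, and for `n = 2 ^ m - 1` and `m < 2 ^ L` one has
`R_{1/3}(F) ≤ 90 L + 2` and `Q*_{1/3}(F) ≤ 180 L + 4`; that is, `D(F) ≥ log₂ n`, whereas
`R_{1/3}(F)` and `Q*_{1/3}(F)` are `O(log log n)`. -/
theorem result :
    (¬ ∃ P : Polynomial ℝ, ∀ (n : ℕ) (f : (Fin n → Bool) → Bool),
      (D (andComp f) : ℝ) ≤ P.eval (Qstar (1 / 3) (andComp f) : ℝ)) ∧
    (∀ n : ℕ, n ≤ 2 ^ D (andComp (parityLeadingOnes n))) ∧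
    (∀ m L : ℕ, m < 2 ^ L →
      R (1 / 3) (andComp (parityLeadingOnes (2 ^ m - 1))) ≤ 90 * L + 2 ∧
      Qstar (1 / 3) (andComp (parityLeadingOnes (2 ^ m - 1))) ≤ 180 * L + 4) := by
  refine ⟨?_, le_two_pow_D, fun m L h => R_le h⟩
  rintro ⟨P, hP⟩
  obtain ⟨L, hL, h⟩ := poly_lt P
  have hL4 : 2 ^ 2 ≤ 2 ^ L := Nat.pow_le_pow_right (by norm_num) hL
  have h1 := (R_le (m := 2 ^ L - 1) (L := L) (by omega)).2
  have h2 := D_ge (2 ^ L - 1) (by omega)
  have h3 := h _ h1
  have h4 := hP _ (parityLeadingOnes (2 ^ (2 ^ L - 1) - 1))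
  have h5 : (((2 ^ L - 1 : ℕ)) : ℝ) ≤
      (D (andComp (parityLeadingOnes (2 ^ (2 ^ L - 1) - 1))) : ℝ) := by exact_mod_cast h2
  linarith

end Pool.Agent.Results.MP_799357_lc.LeadingOnes
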